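import Pool.Agent.helper19.MX.SpecA

set_option autoImplicit false

/-!
# Row IDP: the identity (I2)
-/

namespace MX

open Finset

lemma IDP_add {L : Type} [Field L] [CharP L 2] (x y : L) (n : ℕ) :
    (x + y) ^ (2 ^ n) = x ^ (2 ^ n) + y ^ (2 ^ n) := by
  have : Fact (Nat.Prime 2) := ⟨Nat.prime_two⟩
  exact add_pow_char_pow x y 2 n

lemma IDP_sum {L : Type} [Field L] (h : ℕ) (b : ℕ → L) (X : L) :
    PP h b X = ∑ k ∈ range h,
      (b (k + 1) ^ (2 ^ (k + 1)) * X ^ (2 ^ (h + (k + 1))) + b (k + 1) * X ^ (2 ^ (h - (k + 1)))) := by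
  have e : Icc 1 h = Ico 1 (h + 1) := by
    ext i
    simp only [mem_Icc, mem_Ico]
    omega
  rw [PP, e, sum_Ico_eq_sum_range]
  refine sum_congr (by simp) fun k _ => ?_
  rw [Nat.add_comm 1 k]

lemma IDP_sq {L : Type} [Field L] [CharP L 2] (s : Finset ℕ) (f : ℕ → L) :
    (∑ k ∈ s, f k) ^ 2 = ∑ k ∈ s, f k ^ 2 := by
  have : Fact (Nat.Prime 2) := ⟨Nat.prime_two⟩
  exact sum_pow_char 2 s f

theorem IDP : IDP_stmt := by
  intro L _ _ h hh b d X
  obtain ⟨m, rfl⟩ : ∃ m, h = m + 1 := ⟨h - 1, by omega⟩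
  have c0 : ∀ x : L, x + x = 0 := fun x => CharTwo.add_self_eq_zero x
  set B : ℕ → L := cut (m + 1) b with hB
  set D : L := d ^ (2 ^ (m + 1 + 1)) with hD
  have hB1 : ∀ k, k < m + 1 → B (k + 1) = b (k + 1) := fun k hk => by
    rw [hB, cut, if_pos (by omega)]
  have hB0 : ∀ k, m + 1 < k → B k = 0 := fun k hk => by
    rw [hB, cut, if_neg (by omega)]
  -- the four parts
  have hU : ∀ k, Ud (m + 1) b d (k + 1) = B (k + 1) +
      B (k + 1) ^ 2 * (D * d ^ (2 ^ (m + 1 + 1 - (k + 1)))) +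
      (if 1 ≤ k then B k * d ^ (2 ^ (m + 1 + 1 - (k + 1))) else 0) + B (k + 2) ^ 2 * D := by
    intro k
    rw [Ud, pow_add]
    have e : (2 ≤ k + 1) = (1 ≤ k) := by
      apply propext
      omega
    simp only [e, Nat.add_sub_cancel]
    rfl
  have hUp : ∀ k, k ≤ m + 1 → Ud (m + 1) b d (k + 1) ^ (2 ^ (k + 1)) = B (k + 1) ^ (2 ^ (k + 1)) +
      B (k + 1) ^ (2 ^ (k + 2)) * (d ^ (2 ^ (m + 1 + (k + 2))) * D) +
      (if 1 ≤ k then B k ^ (2 ^ (k + 1)) * D else 0) +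
      B (k + 2) ^ (2 ^ (k + 2)) * d ^ (2 ^ (m + 1 + (k + 2))) := by
    intro k hk
    rw [hU, IDP_add, IDP_add, IDP_add]
    have e1 : ∀ x : L, (x ^ 2) ^ (2 ^ (k + 1)) = x ^ (2 ^ (k + 2)) := fun x => by
      rw [← pow_mul, ← pow_succ']
    have e2 : D ^ (2 ^ (k + 1)) = d ^ (2 ^ (m + 1 + (k + 2))) := by
      rw [hD, ← pow_mul, ← pow_add]
      congr 2
      omega
    have e3 : (d ^ (2 ^ (m + 1 + 1 - (k + 1)))) ^ (2 ^ (k + 1)) = D := by
      rw [hD, ← pow_mul, ← pow_add]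
      congr 2
      omega
    have e4 : (if 1 ≤ k then B k * d ^ (2 ^ (m + 1 + 1 - (k + 1))) else 0) ^ (2 ^ (k + 1)) =
        if 1 ≤ k then B k ^ (2 ^ (k + 1)) * D else 0 := by
      split_ifs
      · rw [mul_pow, e3]
      · exact zero_pow (by positivity)
    rw [mul_pow, mul_pow, mul_pow, e1, e1, e2, e3, e4]
  set f1 : ℕ → L := fun k => B (k + 1) ^ (2 ^ (k + 1)) * X ^ (2 ^ (m + 1 + 1 + (k + 1))) +
    B (k + 1) * X ^ (2 ^ (m + 1 + 1 - (k + 1))) with hf1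
  set f2 : ℕ → L := fun k =>
    B (k + 1) ^ (2 ^ (k + 2)) * (d ^ (2 ^ (m + 1 + (k + 2))) * D) * X ^ (2 ^ (m + 1 + 1 + (k + 1))) +
    B (k + 1) ^ 2 * (D * d ^ (2 ^ (m + 1 + 1 - (k + 1)))) * X ^ (2 ^ (m + 1 + 1 - (k + 1))) with hf2
  set f3 : ℕ → L := fun k => if 1 ≤ k then B k ^ (2 ^ (k + 1)) * D * X ^ (2 ^ (m + 1 + 1 + (k + 1))) +
    B k * d ^ (2 ^ (m + 1 + 1 - (k + 1))) * X ^ (2 ^ (m + 1 + 1 - (k + 1))) else 0 with hf3
  set g : ℕ → L := fun j => B j ^ (2 ^ j) * d ^ (2 ^ (m + 1 + j)) * X ^ (2 ^ (m + 1 + j)) +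
    B j ^ 2 * D * X ^ (2 ^ (m + 1 + 2 - j)) with hg
  have hL : PP (m + 1 + 1) (Ud (m + 1) b d) X =
      ∑ k ∈ range (m + 1 + 1), (f1 k + f2 k + f3 k + g (k + 2)) := by
    rw [IDP_sum]
    refine sum_congr rfl fun k hk => ?_
    rw [mem_range] at hk
    have e1 : m + 1 + 1 + (k + 1) = m + 1 + (k + 2) := by omega
    have e2 : m + 1 + 2 - (k + 2) = m + 1 + 1 - (k + 1) := by omega
    rw [hUp k (by omega), hU]
    simp only [hf1, hf2, hf3, hg, e1, e2]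
    split_ifs <;> ring
  have hg1 : g 1 = 0 := by
    simp only [hg]
    have e1 : m + 1 + 2 - 1 = m + 1 + 1 := by omega
    rw [e1, ← hD, pow_one]
    exact c0 _
  have hS4 : ∑ k ∈ range (m + 1 + 1), g (k + 2) = ∑ k ∈ range (m + 1), g (k + 1) := by
    rw [sum_range_succ, sum_range_succ, sum_range_succ']
    have z1 : g (m + 2) = 0 := by
      simp only [hg]
      rw [hB0 (m + 2) (by omega), zero_pow (by positivity)]
      ring
    have z2 : g (m + 1 + 2) = 0 := by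
      simp only [hg]
      rw [hB0 (m + 1 + 2) (by omega), zero_pow (by positivity)]
      ring
    simp only [z1, z2, hg1, add_zero]
  have hS3 : ∑ k ∈ range (m + 1 + 1), f3 k = ∑ k ∈ range (m + 1), f3 (k + 1) := by
    rw [sum_range_succ']
    have z : f3 0 = 0 := by simp [hf3]
    rw [z, add_zero]
  have hS1 : ∑ k ∈ range (m + 1 + 1), f1 k = ∑ k ∈ range (m + 1), f1 k := by
    rw [sum_range_succ]
    have z : f1 (m + 1) = 0 := by
      simp only [hf1]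
      rw [hB0 (m + 1 + 1) (by omega), zero_pow (by positivity)]
      ring
    rw [z, add_zero]
  have hS2 : ∑ k ∈ range (m + 1 + 1), f2 k = ∑ k ∈ range (m + 1), f2 k := by
    rw [sum_range_succ]
    have z : f2 (m + 1) = 0 := by
      simp only [hf2]
      rw [hB0 (m + 1 + 1) (by omega), zero_pow (by positivity)]
      ring
    rw [z, add_zero]
  rw [hL, sum_add_distrib, sum_add_distrib, sum_add_distrib, hS1, hS2, hS3, hS4,
    ← sum_add_distrib, ← sum_add_distrib, ← sum_add_distrib, IDP_sum (m + 1) b, IDP_sq, mul_sum,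
    ← sum_add_distrib]
  refine sum_congr rfl fun k hk => ?_
  rw [mem_range] at hk
  have hY : ∀ j, (X ^ 2 + d * X) ^ (2 ^ j) = X ^ (2 ^ (j + 1)) + d ^ (2 ^ j) * X ^ (2 ^ j) := by
    intro j
    rw [IDP_add, mul_pow, ← pow_mul, ← pow_succ']
  have hY2 : ∀ j, ((X ^ 2 + d * X) ^ (2 ^ j)) ^ 2 =
      X ^ (2 ^ (j + 2)) + d ^ (2 ^ (j + 1)) * X ^ (2 ^ (j + 1)) := by
    intro j
    rw [← pow_mul, ← pow_succ, hY]
  have hb2 : ∀ x : L, (x ^ (2 ^ (k + 1))) ^ 2 = x ^ (2 ^ (k + 2)) := fun x => by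
    rw [← pow_mul, ← pow_succ]
  have hsq : ∀ x y : L, (x + y) ^ 2 = x ^ 2 + y ^ 2 := fun x y => by
    have := IDP_add x y 1
    simpa using this
  rw [hsq, mul_pow, mul_pow, hY2, hY2, hY, hY, hb2]
  simp only [hf1, hf2, hf3, hg]
  rw [if_pos (by omega), hB1 k hk]
  have e1 : m + 1 + 1 + (k + 1) = m + 1 + (k + 1) + 1 := by omega
  have e2 : m + 1 + 1 - (k + 1) = m + 1 - (k + 1) + 1 := by omega
  have e3 : m + 1 + (k + 2) = m + 1 + (k + 1) + 1 := by omega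
  have e4 : m + 1 + 1 + (k + 1 + 1) = m + 1 + (k + 1) + 2 := by omega
  have e5 : m + 1 + 1 - (k + 1 + 1) = m + 1 - (k + 1) := by omega
  have e6 : m + 1 + 2 - (k + 1) = m + 1 - (k + 1) + 2 := by omega
  rw [e1, e2, e3, e4, e5, e6]
  ring

end MX
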