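import Pool.Agent.helper19.MX.SpecA

set_option autoImplicit false

/-!
# Row DES: the descending recursion is continuous
-/

namespace MX

open Finset Filter
open scoped Topology

/-- the pairs `(b' (h - k), b' (h - k + 1))` -/
def DES_R {L : Type} [Field L] (h : ℕ) (p : (ℕ → L) × L) : ℕ → L × L
  | 0 => (p.1 (h + 1) / p.2, 0)
  | k + 1 => ((p.1 (h - k) + (DES_R h p k).1 +
      (DES_R h p k).1 ^ 2 * p.2 ^ (2 ^ (h + 1) + 2 ^ (h + 1 - (h - k))) +
      (DES_R h p k).2 ^ 2 * p.2 ^ (2 ^ (h + 1))) / p.2 ^ (2 ^ (h + 1 - (h - k))), (DES_R h p k).1)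

lemma DES_tend {L : Type} [Field L] [CharP L 2] [TopologicalSpace L] [IsTopologicalDivisionRing L]
    (h : ℕ) (hh : 1 ≤ h) (b : ℕ → L) (d : L) (hd : d ≠ 0) (k : ℕ) (hk : k + 1 ≤ h) :
    Tendsto (fun p => (DES_R h p k).1) (𝓝 (Ud h b d, d)) (𝓝 (cut h b (h - k))) ∧
      Tendsto (fun p => (DES_R h p k).2) (𝓝 (Ud h b d, d)) (𝓝 (cut h b (h - k + 1))) := by
  have h2 : Tendsto (fun p : (ℕ → L) × L => p.2) (𝓝 (Ud h b d, d)) (𝓝 d) :=
    continuous_snd.tendsto _
  have h1 : ∀ i, Tendsto (fun p : (ℕ → L) × L => p.1 i) (𝓝 (Ud h b d, d)) (𝓝 (Ud h b d i)) :=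
    fun i => ((continuous_apply i).comp continuous_fst).tendsto _
  induction k with
  | zero =>
    refine ⟨?_, ?_⟩
    · have e : cut h b (h - 0) = Ud h b d (h + 1) / d := by
        simp [Ud, cut, hd, show 2 ≤ h + 1 by omega]
      rw [e]
      exact (h1 (h + 1)).div h2 hd
    · have e : cut h b (h - 0 + 1) = 0 := by simp [cut]
      rw [e]
      exact tendsto_const_nhds
  | succ k ih =>
    obtain ⟨i1, i2⟩ := ih (by omega)
    refine ⟨?_, ?_⟩
    · have hdp : d ^ (2 ^ (h + 1 - (h - k))) ≠ 0 := pow_ne_zero _ hd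
      have e : cut h b (h - (k + 1)) = (Ud h b d (h - k) + cut h b (h - k) +
          cut h b (h - k) ^ 2 * d ^ (2 ^ (h + 1) + 2 ^ (h + 1 - (h - k))) +
          cut h b (h - k + 1) ^ 2 * d ^ (2 ^ (h + 1))) / d ^ (2 ^ (h + 1 - (h - k))) := by
        rw [eq_div_iff hdp]
        have e1 : h - (k + 1) = h - k - 1 := by omega
        rw [Ud, if_pos (by omega), e1]
        have c0 : ∀ x : L, x + x = 0 := fun x => CharTwo.add_self_eq_zero x
        linear_combination -(c0 (cut h b (h - k))) -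
          (c0 (cut h b (h - k) ^ 2 * d ^ (2 ^ (h + 1) + 2 ^ (h + 1 - (h - k))))) -
          (c0 (cut h b (h - k + 1) ^ 2 * d ^ (2 ^ (h + 1))))
      rw [e]
      exact ((((h1 (h - k)).add i1).add ((i1.pow 2).mul (h2.pow _))).add
        ((i2.pow 2).mul (h2.pow _))).div (h2.pow _) hdp
    · have e : h - (k + 1) + 1 = h - k := by omega
      rw [e]
      exact i1

theorem DES : DES_stmt := by
  intro L _ _ _ _ _ h hh b d hd
  refine ⟨fun p i => (DES_R h p (h - i)).1, fun i hi hih => ?_, ?_⟩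
  · have := (DES_tend h hh b d hd (h - i) (by omega)).1
    have e : h - (h - i) = i := by omega
    rw [e] at this
    have e2 : cut h b i = b i := by simp [cut, hih]
    rwa [e2] at this
  · have h2 : Tendsto (fun p : (ℕ → L) × L => p.2) (𝓝 (Ud h b d, d)) (𝓝 d) :=
      continuous_snd.tendsto _
    filter_upwards [h2.eventually_ne hd] with p hp b' hb' i hi hih
    rcases Nat.lt_or_ge h i with hlt | hge
    · have e : i = h + 1 := by omega
      subst e
      have e1 : b' h = p.1 (h + 1) / p.2 := by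
        rw [hb' h hh le_rfl]
        simp [DES_R]
      simp [Ud, cut, show 2 ≤ h + 1 by omega, e1, hp]
    · have hdp : p.2 ^ (2 ^ (h + 1 - i)) ≠ 0 := pow_ne_zero _ hp
      have e1 : cut h b' i = (DES_R h p (h - i)).1 := by
        rw [cut, if_pos hge, hb' i (by omega) hge]
      have e2 : cut h b' (i + 1) = (DES_R h p (h - i)).2 := by
        rcases Nat.lt_or_ge i h with h3 | h3
        · rw [cut, if_pos (by omega), hb' (i + 1) (by omega) (by omega)]
          have e : h - i = (h - (i + 1)) + 1 := by omega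
          rw [e]
          rfl
        · have e : i = h := by omega
          subst e
          simp [cut, DES_R]
      have e3 : cut h b' (i - 1) * p.2 ^ (2 ^ (h + 1 - i)) = p.1 i + (DES_R h p (h - i)).1 +
          (DES_R h p (h - i)).1 ^ 2 * p.2 ^ (2 ^ (h + 1) + 2 ^ (h + 1 - i)) +
          (DES_R h p (h - i)).2 ^ 2 * p.2 ^ (2 ^ (h + 1)) := by
        rw [cut, if_pos (by omega), hb' (i - 1) (by omega) (by omega)]
        have e : h - (i - 1) = (h - i) + 1 := by omega
        have e' : h - (h - i) = i := by omega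
        rw [e, DES_R, e']
        exact div_mul_cancel₀ _ hdp
      have c0 : ∀ x : L, x + x = 0 := fun x => CharTwo.add_self_eq_zero x
      rw [Ud, if_pos hi, e1, e2, e3]
      linear_combination -(c0 ((DES_R h p (h - i)).1)) -
        (c0 ((DES_R h p (h - i)).1 ^ 2 * p.2 ^ (2 ^ (h + 1) + 2 ^ (h + 1 - i)))) -
        (c0 ((DES_R h p (h - i)).2 ^ 2 * p.2 ^ (2 ^ (h + 1))))

end MX
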